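import Pool.Agent.Helper3.WA.Defs
import Pool.Agent.Helper85.WT.C1

/-!
WA-22: the parameters.
-/

set_option autoImplicit false

namespace Pool.Agent.Helper85.WA

open Finset Filter
open Pool.Agent.Helper48.ET
open Pool.Agent.Helper3.WT
open Pool.Agent.Helper85.WT (Cs Th Sp Sp_spec le_Sp tendsto_Sp logb_GG_le)

/-- the exponents -/
noncomputable def nn (m0 : ℕ) : ℕ → ℕ
  | 0 => Th 1 + m0
  | k + 1 => nn m0 k + nn m0 k / Sp (nn m0 k) + 1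

variable (m0 : ℕ)

theorem nn_succ (k : ℕ) : nn m0 (k + 1) = nn m0 k + nn m0 k / Sp (nn m0 k) + 1 := rfl

theorem nn_lt (k : ℕ) : nn m0 k < nn m0 (k + 1) := by
  rw [nn_succ m0]; exact Nat.lt_succ_of_le (Nat.le_add_right _ _)

theorem Th_le_nn (k : ℕ) : Th 1 ≤ nn m0 k := by
  induction k with
  | zero => exact Nat.le_add_right (Th 1) m0
  | succ k ih => exact ih.trans (nn_lt m0 k).le

theorem le_nn (k : ℕ) : k ≤ nn m0 k := by
  induction k with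
  | zero => exact Nat.zero_le _
  | succ k ih => exact Nat.succ_le_of_lt (lt_of_le_of_lt ih (nn_lt m0 k))

theorem nn_ge (k : ℕ) : 100 ≤ nn m0 k := le_trans (by unfold Th; omega) (Th_le_nn m0 k)

theorem nn_succ_le (k : ℕ) : nn m0 (k + 1) ≤ 2 * nn m0 k + 1 := by
  rw [nn_succ m0]
  have := Nat.div_le_self (nn m0 k) (Sp (nn m0 k))
  omega

theorem tendsto_nn : Tendsto (nn m0) atTop atTop := tendsto_atTop_mono (le_nn m0) tendsto_id

theorem tendsto_ss : Tendsto (fun k => Sp (nn m0 k)) atTop atTop := tendsto_Sp.comp (tendsto_nn m0)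

theorem nn_P0 (k : ℕ) : P0 (Cs (Sp (nn m0 k))) (2 ^ nn m0 (k + 1)) < 2 ^ 2 ^ (nn m0 k / 2) := by
  have h1 := (Sp_spec (Th_le_nn m0 k)).2
  have h2 : 2 * Del (Cs (Sp (nn m0 k))) + 1 ≤ nn m0 k := le_trans (by unfold Th; omega) h1
  have h3 := nn_succ_le m0 k
  have h4 : nn m0 k < 2 ^ nn m0 k := Nat.lt_two_pow_self
  have h5 := nn_ge m0 k
  set a := nn m0 k with ha
  unfold P0
  have h6 : (2 : ℕ) ^ nn m0 (k + 1) ≤ 2 ^ (2 * a + 1) := Nat.pow_le_pow_right (by norm_num) h3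
  have h7 : 2 ^ nn m0 (k + 1) * (2 * Del (Cs (Sp a)) + 1) ≤ 2 ^ (2 * a + 1) * 2 ^ a :=
    Nat.mul_le_mul h6 (h2.trans h4.le)
  have h8 : (2 : ℕ) ^ (2 * a + 1) * 2 ^ a = 2 ^ (3 * a + 1) := by
    rw [← pow_add]; congr 1; omega
  have h9 : 2 < (2 : ℕ) ^ (3 * a + 1) := by
    calc (2 : ℕ) = 2 ^ 1 := by norm_num
      _ < 2 ^ (3 * a + 1) := Nat.pow_lt_pow_right (by norm_num) (by omega)
  have h10 : (2 : ℕ) ^ (3 * a + 1) + 2 ^ (3 * a + 1) = 2 ^ (3 * a + 2) := by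
    rw [← two_mul, ← pow_succ']
  have h11 : 3 * a + 2 < 2 ^ (a / 2) := by
    have : ∀ m : ℕ, 6 ≤ m → 6 * m + 5 < 2 ^ m := by
      intro m hm
      induction m, hm using Nat.le_induction with
      | base => norm_num
      | succ m hm ih => rw [pow_succ]; omega
    have h13 := this (a / 2) (by omega)
    omega
  have h12 : (2 : ℕ) ^ (3 * a + 2) < 2 ^ 2 ^ (a / 2) := Nat.pow_lt_pow_right (by norm_num) h11
  omega

theorem nn_ratio (k : ℕ) :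
    (nn m0 (k + 1) : ℝ) ≤ nn m0 k * (1 + 1 / (Sp (nn m0 k) : ℝ) + 1 / (nn m0 k : ℝ)) := by
  have h1 : (0 : ℝ) < nn m0 k := by
    have := nn_ge m0 k
    exact_mod_cast (by omega : 0 < nn m0 k)
  have h2 : (((nn m0 k / Sp (nn m0 k) : ℕ)) : ℝ) ≤ (nn m0 k : ℝ) / (Sp (nn m0 k) : ℝ) := Nat.cast_div_le
  rw [nn_succ m0]
  push_cast
  have h3 : (nn m0 k : ℝ) * (1 + 1 / (Sp (nn m0 k) : ℝ) + 1 / (nn m0 k : ℝ)) =
      nn m0 k + (nn m0 k : ℝ) / (Sp (nn m0 k) : ℝ) + 1 := by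
    field_simp
  rw [h3]
  linarith

theorem nn_ev (e : ℝ) (he : 0 < e) : ∀ᶠ k in atTop, (nn m0 (k + 1) : ℝ) ≤ (1 + e) * nn m0 k := by
  have h1 : Tendsto (fun k => 1 / (Sp (nn m0 k) : ℝ)) atTop (nhds 0) :=
    tendsto_one_div_atTop_nhds_zero_nat.comp (tendsto_ss m0)
  have h2 : Tendsto (fun k => 1 / (nn m0 k : ℝ)) atTop (nhds 0) :=
    tendsto_one_div_atTop_nhds_zero_nat.comp (tendsto_nn m0)
  filter_upwards [h1.eventually_lt_const (half_pos he), h2.eventually_lt_const (half_pos he)]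
    with k hk1 hk2
  refine (nn_ratio m0 k).trans ?_
  rw [mul_comm]
  exact mul_le_mul_of_nonneg_right (by linarith) (Nat.cast_nonneg _)

/-- the logarithm of the multiplicity -/
noncomputable def gl (j : ℕ) : ℝ := Real.logb 2 (GG (Cs (Sp (nn m0 j))) (2 ^ nn m0 (j + 1)) : ℝ)

theorem gl_nonneg (j : ℕ) : 0 ≤ gl m0 j := by
  unfold gl
  rcases Nat.eq_zero_or_pos (GG (Cs (Sp (nn m0 j))) (2 ^ nn m0 (j + 1))) with h | h
  · rw [h]; simp
  · exact Real.logb_nonneg (by norm_num) (by exact_mod_cast h)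

theorem gl_le (j : ℕ) :
    gl m0 j ≤ 4 / (Sp (nn m0 j) : ℝ) * ((nn m0 (j + 1) : ℝ) - nn m0 j) := by
  obtain ⟨h1, h2⟩ := Sp_spec (Th_le_nn m0 j)
  have h3 := logb_GG_le (Sp (nn m0 j)) (nn m0 (j + 1))
  have h4 := nn_succ_le m0 j
  have h5 := nn_ge m0 j
  set s := Sp (nn m0 j) with hs
  have hs0 : (0 : ℝ) < s := by exact_mod_cast h1
  have h6 : (((nn m0 (j + 1) / (s ^ 2 + 3) : ℕ)) : ℝ) ≤ (3 * nn m0 j : ℝ) / (s : ℝ) ^ 2 := by
    refine Nat.cast_div_le.trans ?_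
    have h7 : (nn m0 (j + 1) : ℝ) ≤ 3 * nn m0 j := by
      exact_mod_cast (by omega : nn m0 (j + 1) ≤ 3 * nn m0 j)
    push_cast
    refine div_le_div₀ (by positivity) h7 (by positivity) (by linarith)
  have h8 : (1 + 2 * (Nat.clog 2 (N0 (Cs s)) : ℝ)) ≤ (nn m0 j : ℝ) / (s : ℝ) ^ 2 := by
    rw [le_div_iff₀ (by positivity)]
    have : s ^ 2 * (1 + 2 * Nat.clog 2 (N0 (Cs s))) ≤ nn m0 j := le_trans (by unfold Th; omega) h2
    have h9 : ((s : ℝ) ^ 2 * (1 + 2 * (Nat.clog 2 (N0 (Cs s)) : ℝ))) ≤ nn m0 j := by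
      exact_mod_cast this
    linarith
  have h10 : (nn m0 j : ℝ) / s ≤ (nn m0 (j + 1) : ℝ) - nn m0 j := by
    rw [nn_succ m0, ← hs]
    push_cast
    have h11 : (nn m0 j : ℝ) < s * ((nn m0 j / s : ℕ) + 1 : ℝ) := by
      have := Nat.lt_mul_div_succ (nn m0 j) h1
      exact_mod_cast this
    rw [div_le_iff₀ hs0]
    nlinarith
  have h12 : gl m0 j ≤ (3 * nn m0 j : ℝ) / (s : ℝ) ^ 2 + (nn m0 j : ℝ) / (s : ℝ) ^ 2 := by
    unfold gl
    rw [← hs]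
    linarith
  refine h12.trans ?_
  have h13 : (3 * nn m0 j : ℝ) / (s : ℝ) ^ 2 + (nn m0 j : ℝ) / (s : ℝ) ^ 2 =
      4 / (s : ℝ) * ((nn m0 j : ℝ) / s) := by
    field_simp
    ring
  rw [h13]
  exact mul_le_mul_of_nonneg_left h10 (by positivity)

theorem gl_isLittleO : (gl m0 : ℕ → ℝ) =o[atTop] fun j => ((nn m0 (j + 1) : ℝ) - nn m0 j) := by
  rw [Asymptotics.isLittleO_iff]
  intro c hc
  have h1 : Tendsto (fun k => 1 / (Sp (nn m0 k) : ℝ)) atTop (nhds 0) :=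
    tendsto_one_div_atTop_nhds_zero_nat.comp (tendsto_ss m0)
  filter_upwards [h1.eventually_lt_const (show 0 < c / 4 by positivity)] with j hj
  have h2 : (0 : ℝ) ≤ (nn m0 (j + 1) : ℝ) - nn m0 j := by
    have : (nn m0 j : ℝ) ≤ nn m0 (j + 1) := by exact_mod_cast (nn_lt m0 j).le
    linarith
  rw [Real.norm_of_nonneg (gl_nonneg m0 j), Real.norm_of_nonneg h2]
  refine (gl_le m0 j).trans (mul_le_mul_of_nonneg_right ?_ h2)
  have : (4 : ℝ) / (Sp (nn m0 j) : ℝ) = 4 * (1 / (Sp (nn m0 j) : ℝ)) := by ring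
  rw [this]
  linarith

theorem sum_nn (k : ℕ) : ∑ j ∈ range k, ((nn m0 (j + 1) : ℝ) - nn m0 j) = nn m0 k - nn m0 0 :=
  Finset.sum_range_sub (fun j => (nn m0 j : ℝ)) k

theorem sum_ev (e : ℝ) (he : 0 < e) :
    ∀ᶠ k in atTop, ∑ j ∈ range (k + 1), gl m0 j ≤ e * nn m0 k := by
  have h1 : Tendsto (fun k => ∑ j ∈ range k, ((nn m0 (j + 1) : ℝ) - nn m0 j)) atTop atTop := by
    simp_rw [sum_nn m0]
    exact tendsto_atTop_add_const_right _ _ (tendsto_natCast_atTop_atTop.comp (tendsto_nn m0))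
  have h2 := (gl_isLittleO m0).sum_range
    (fun j => by
      have : (nn m0 j : ℝ) ≤ nn m0 (j + 1) := by exact_mod_cast (nn_lt m0 j).le
      show (0 : ℝ) ≤ (nn m0 (j + 1) : ℝ) - nn m0 j
      linarith) h1
  rw [Asymptotics.isLittleO_iff] at h2
  have h3 := h2 (show 0 < e / 3 by positivity)
  have h4 : Tendsto (fun k : ℕ => k + 1) atTop atTop := tendsto_add_atTop_nat 1
  filter_upwards [h4.eventually h3] with k hk
  rw [sum_nn m0] at hk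
  have h5 : (0 : ℝ) ≤ ∑ j ∈ range (k + 1), gl m0 j := sum_nonneg fun j _ => gl_nonneg m0 j
  rw [Real.norm_of_nonneg h5] at hk
  have h6 : (nn m0 (k + 1) : ℝ) ≤ 3 * nn m0 k := by
    have := nn_succ_le m0 k
    have := nn_ge m0 k
    exact_mod_cast (by omega : nn m0 (k + 1) ≤ 3 * nn m0 k)
  have h7 : ‖((nn m0 (k + 1) : ℝ)) - nn m0 0‖ ≤ 3 * nn m0 k := by
    rw [Real.norm_eq_abs, abs_le]
    have h8 : (nn m0 0 : ℝ) ≤ nn m0 (k + 1) := by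
      have : nn m0 0 ≤ nn m0 (k + 1) := (strictMono_nat_of_lt_succ (nn_lt m0)).monotone (Nat.zero_le _)
      exact_mod_cast this
    have h9 : (0 : ℝ) ≤ nn m0 0 := Nat.cast_nonneg _
    have h10 : (0 : ℝ) ≤ nn m0 k := Nat.cast_nonneg _
    constructor <;> linarith
  refine hk.trans ?_
  calc e / 3 * ‖((nn m0 (k + 1) : ℝ)) - nn m0 0‖ ≤ e / 3 * (3 * nn m0 k) :=
        mul_le_mul_of_nonneg_left h7 (by positivity)
    _ = e * nn m0 k := by ring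

/-- WA-22: the sequences of parameters -/
theorem paramsA (m0 : ℕ) : ∃ j C : ℕ → ℕ, m0 ≤ j 0 ∧ (∀ k, 8 ≤ C k) ∧ (∀ k, Even (C k)) ∧
    (∀ k, j k < j (k + 1)) ∧
    (∀ k, P0 (C k) (2 ^ j (k + 1)) < 2 ^ 2 ^ (j k / 2)) ∧
    (∀ e : ℝ, 0 < e → ∀ᶠ k in atTop, (j (k + 1) : ℝ) ≤ (1 + e) * j k) ∧
    (∀ e : ℝ, 0 < e → ∀ᶠ k in atTop,
      ∑ i ∈ range (k + 1), Real.logb 2 (GG (C i) (2 ^ j (i + 1)) : ℝ) ≤ e * j k) := by
  refine ⟨nn m0, fun k => Cs (Sp (nn m0 k)), Nat.le_add_left _ _, ?_, ?_, nn_lt m0, nn_P0 m0,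
    nn_ev m0, sum_ev m0⟩
  · intro k
    show 8 ≤ 2 ^ (Sp (nn m0 k) ^ 2 + 3)
    calc 8 = 2 ^ 3 := by norm_num
      _ ≤ 2 ^ (Sp (nn m0 k) ^ 2 + 3) := Nat.pow_le_pow_right (by norm_num) (by omega)
  · intro k
    show Even (2 ^ (Sp (nn m0 k) ^ 2 + 3))
    exact Even.pow_of_ne_zero even_two (by omega)

end Pool.Agent.Helper85.WA
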